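import Pool.Agent.Helper10.Qc.Stmts

set_option autoImplicit false

namespace Pool.Agent.Helper10.Qc

open Pool.Agent.Helper19.Qh Pool.Agent.Helper19.Qc

def repR : Fin 7 → ℤ × ℤ × ℤ × ℤ := ![(1, 0, 0, 0), (1, 1, 0, 0), (1, 1, 1, 0), (1, 1, -1, 0),
  (1, -1, 1, 0), (1, -1, -1, 0), (2, 0, 0, 0)]

def repN : Fin 7 → ℤ := ![1, 2, 3, 3, 3, 3, 4]

def repZ (x0 x1 x2 x3 : ℤ) (i : Fin 7) : ℤ × ℤ × ℤ × ℤ :=
  ((x0 * (repR i).1 + x1 * (repR i).2.1 + x2 * (repR i).2.2.1 + x3 * (repR i).2.2.2) / repN i,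
   (-(x0 * (repR i).2.1) + x1 * (repR i).1 - x2 * (repR i).2.2.2 + x3 * (repR i).2.2.1) / repN i,
   (-(x0 * (repR i).2.2.1) + x2 * (repR i).1 - x3 * (repR i).2.1 + x1 * (repR i).2.2.2) / repN i,
   (-(x0 * (repR i).2.2.2) + x3 * (repR i).1 - x1 * (repR i).2.2.1 + x2 * (repR i).2.1) / repN i)

def repP (x0 x1 x2 x3 : ℤ) (r z : ℤ × ℤ × ℤ × ℤ) : Bool :=
  z.1 * r.1 - z.2.1 * r.2.1 - z.2.2.1 * r.2.2.1 - z.2.2.2 * r.2.2.2 == x0 &&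
  z.1 * r.2.1 + z.2.1 * r.1 + z.2.2.1 * r.2.2.2 - z.2.2.2 * r.2.2.1 == x1 &&
  z.1 * r.2.2.1 - z.2.1 * r.2.2.2 + z.2.2.1 * r.1 + z.2.2.2 * r.2.1 == x2 &&
  z.1 * r.2.2.2 + z.2.1 * r.2.2.1 - z.2.2.1 * r.2.1 + z.2.2.2 * r.1 == x3 &&
  z.1 * z.1 + z.2.1 * z.2.1 + z.2.2.1 * z.2.2.1 + z.2.2.2 * z.2.2.2 == 4 &&
  (z.2.1 - z.1) % 2 == 0 && (z.2.2.1 - z.1) % 2 == 0 && (z.2.2.2 - z.1) % 2 == 0

def repC (x0 x1 x2 x3 : ℤ) : Bool :=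
  !((x1 - x0) % 2 == 0 && (x2 - x0) % 2 == 0 && (x3 - x0) % 2 == 0 &&
    decide (1 ≤ x0 * x0 + x1 * x1 + x2 * x2 + x3 * x3) &&
    decide (x0 * x0 + x1 * x1 + x2 * x2 + x3 * x3 ≤ 16)) ||
  (List.finRange 7).any (fun i => repP x0 x1 x2 x3 (repR i) (repZ x0 x1 x2 x3 i))

def repA : Bool := (List.range 9).all (fun a => (List.range 9).all (fun b =>
  (List.range 9).all (fun c => (List.range 9).all (fun d =>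
    repC ((a : ℤ) - 4) ((b : ℤ) - 4) ((c : ℤ) - 4) ((d : ℤ) - 4)))))

theorem repA_true : repA = true := by decide +kernel

theorem rep_ext {a b : Q} (h0 : a.re = b.re) (h1 : a.imI = b.imI) (h2 : a.imJ = b.imJ)
    (h3 : a.imK = b.imK) : a = b := Quaternion.ext a b h0 h1 h2 h3

theorem rep_rho (i : Fin 7) : rho i = ⟨((repR i).1 : ℝ), ((repR i).2.1 : ℝ),
    ((repR i).2.2.1 : ℝ), ((repR i).2.2.2 : ℝ)⟩ := by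
  fin_cases i <;> simp [rho, repR] <;> rfl

theorem rep_dec (x : Fin 4 → ℤ) (h1 : (2 : ℤ) ∣ x 1 - x 0) (h2 : (2 : ℤ) ∣ x 2 - x 0)
    (h3 : (2 : ℤ) ∣ x 3 - x 0) (hlo : 1 ≤ x 0 * x 0 + x 1 * x 1 + x 2 * x 2 + x 3 * x 3)
    (hhi : x 0 * x 0 + x 1 * x 1 + x 2 * x 2 + x 3 * x 3 ≤ 16) :
    ∃ i : Fin 7, repP (x 0) (x 1) (x 2) (x 3) (repR i) (repZ (x 0) (x 1) (x 2) (x 3) i) = true := by
  have hb : ∀ j : Fin 4, -4 ≤ x j ∧ x j ≤ 4 := by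
    intro j
    have h0 := mul_self_nonneg (x 0)
    have h1 := mul_self_nonneg (x 1)
    have h2 := mul_self_nonneg (x 2)
    have h3 := mul_self_nonneg (x 3)
    fin_cases j
    · show -4 ≤ x 0 ∧ x 0 ≤ 4
      constructor <;> nlinarith
    · show -4 ≤ x 1 ∧ x 1 ≤ 4
      constructor <;> nlinarith
    · show -4 ≤ x 2 ∧ x 2 ≤ 4
      constructor <;> nlinarith
    · show -4 ≤ x 3 ∧ x 3 ≤ 4
      constructor <;> nlinarith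
  have hn : ∀ j : Fin 4, ∃ a : ℕ, a ∈ List.range 9 ∧ x j = (a : ℤ) - 4 := by
    intro j
    obtain ⟨a1, a2⟩ := hb j
    refine ⟨(x j + 4).toNat, ?_, ?_⟩
    · rw [List.mem_range]; omega
    · omega
  obtain ⟨a, ha, ea⟩ := hn 0
  obtain ⟨b, hb', eb⟩ := hn 1
  obtain ⟨c, hc, ec⟩ := hn 2
  obtain ⟨d, hd, ed⟩ := hn 3
  have hA := repA_true
  unfold repA at hA
  rw [List.all_eq_true] at hA
  have hA1 := hA a ha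
  rw [List.all_eq_true] at hA1
  have hA2 := hA1 b hb'
  rw [List.all_eq_true] at hA2
  have hA3 := hA2 c hc
  rw [List.all_eq_true] at hA3
  have hA4 := hA3 d hd
  rw [← ea, ← eb, ← ec, ← ed] at hA4
  unfold repC at hA4
  rw [Bool.or_eq_true] at hA4
  rcases hA4 with h | h
  · exfalso
    have e1 : (x 1 - x 0) % 2 = 0 := Int.emod_eq_zero_of_dvd h1
    have e2 : (x 2 - x 0) % 2 = 0 := Int.emod_eq_zero_of_dvd h2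
    have e3 : (x 3 - x 0) % 2 = 0 := Int.emod_eq_zero_of_dvd h3
    simp [e1, e2, e3, hlo, hhi] at h
  · rw [List.any_eq_true] at h
    obtain ⟨i, _, hi⟩ := h
    exact ⟨i, hi⟩

theorem st_REP (hHZ : ST_HZ) : ST_REP := by
  intro c hc hc0 hcn
  obtain ⟨x, h1, h2, h3, hx⟩ := (hHZ c).1 hc
  have hnc : ‖c‖ ^ 2 = ((x 0 * x 0 + x 1 * x 1 + x 2 * x 2 + x 3 * x 3 : ℤ) : ℝ) / 4 := by
    rw [q_norm_sq, hx]
    unfold hf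
    push_cast
    ring
  have hlo : 1 ≤ x 0 * x 0 + x 1 * x 1 + x 2 * x 2 + x 3 * x 3 := by
    have h4 : 0 < ‖c‖ ^ 2 := by
      have := norm_pos_iff.2 hc0
      positivity
    rw [hnc] at h4
    have h5 : (0 : ℝ) < ((x 0 * x 0 + x 1 * x 1 + x 2 * x 2 + x 3 * x 3 : ℤ) : ℝ) := by linarith
    have h6 : 0 < x 0 * x 0 + x 1 * x 1 + x 2 * x 2 + x 3 * x 3 := by exact_mod_cast h5
    omega
  have hhi : x 0 * x 0 + x 1 * x 1 + x 2 * x 2 + x 3 * x 3 ≤ 16 := by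
    rw [hnc] at hcn
    have h5 : ((x 0 * x 0 + x 1 * x 1 + x 2 * x 2 + x 3 * x 3 : ℤ) : ℝ) ≤ 16 := by linarith
    exact_mod_cast h5
  obtain ⟨i, hi⟩ := rep_dec x h1 h2 h3 hlo hhi
  obtain ⟨z, hz⟩ : ∃ z, z = repZ (x 0) (x 1) (x 2) (x 3) i := ⟨_, rfl⟩
  obtain ⟨r, hr⟩ : ∃ r, r = repR i := ⟨_, rfl⟩
  have hrho := rep_rho i
  rw [← hr] at hrho
  rw [← hz, ← hr] at hi
  unfold repP at hi
  simp only [Bool.and_eq_true, beq_iff_eq] at hi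
  obtain ⟨⟨⟨⟨⟨⟨⟨p0, p1⟩, p2⟩, p3⟩, p4⟩, p5⟩, p6⟩, p7⟩ := hi
  have q0 : (z.1 : ℝ) * r.1 - z.2.1 * r.2.1 - z.2.2.1 * r.2.2.1 - z.2.2.2 * r.2.2.2 = x 0 := by
    exact_mod_cast p0
  have q1 : (z.1 : ℝ) * r.2.1 + z.2.1 * r.1 + z.2.2.1 * r.2.2.2 - z.2.2.2 * r.2.2.1 = x 1 := by
    exact_mod_cast p1
  have q2 : (z.1 : ℝ) * r.2.2.1 - z.2.1 * r.2.2.2 + z.2.2.1 * r.1 + z.2.2.2 * r.2.1 = x 2 := by
    exact_mod_cast p2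
  have q3 : (z.1 : ℝ) * r.2.2.2 + z.2.1 * r.2.2.1 - z.2.2.1 * r.2.1 + z.2.2.2 * r.1 = x 3 := by
    exact_mod_cast p3
  have q4 : (z.1 : ℝ) * z.1 + z.2.1 * z.2.1 + z.2.2.1 * z.2.2.1 + z.2.2.2 * z.2.2.2 = 4 := by
    exact_mod_cast p4
  refine ⟨hf ![z.1, z.2.1, z.2.2.1, z.2.2.2], ?_, ?_, i, ?_⟩
  · rw [hHZ]
    refine ⟨![z.1, z.2.1, z.2.2.1, z.2.2.2], ?_, ?_, ?_, rfl⟩
    · show (2 : ℤ) ∣ z.2.1 - z.1
      exact Int.dvd_of_emod_eq_zero p5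
    · show (2 : ℤ) ∣ z.2.2.1 - z.1
      exact Int.dvd_of_emod_eq_zero p6
    · show (2 : ℤ) ∣ z.2.2.2 - z.1
      exact Int.dvd_of_emod_eq_zero p7
  · have h5 : ‖hf ![z.1, z.2.1, z.2.2.1, z.2.2.2]‖ ^ 2 = 1 := by
      rw [q_norm_sq]
      show ((z.1 : ℝ) / 2) ^ 2 + ((z.2.1 : ℝ) / 2) ^ 2 + ((z.2.2.1 : ℝ) / 2) ^ 2 +
        ((z.2.2.2 : ℝ) / 2) ^ 2 = 1
      linarith
    have h6 := norm_nonneg (hf ![z.1, z.2.1, z.2.2.1, z.2.2.2])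
    nlinarith
  · have t0 : (rho i).re = (r.1 : ℝ) := by rw [hrho]
    have t1 : (rho i).imI = (r.2.1 : ℝ) := by rw [hrho]
    have t2 : (rho i).imJ = (r.2.2.1 : ℝ) := by rw [hrho]
    have t3 : (rho i).imK = (r.2.2.2 : ℝ) := by rw [hrho]
    rw [hx]
    refine rep_ext ?_ ?_ ?_ ?_
    · rw [Quaternion.re_mul, t0, t1, t2, t3]
      show (x 0 : ℝ) / 2 = (z.1 : ℝ) / 2 * r.1 - (z.2.1 : ℝ) / 2 * r.2.1 -
        (z.2.2.1 : ℝ) / 2 * r.2.2.1 - (z.2.2.2 : ℝ) / 2 * r.2.2.2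
      linarith
    · rw [Quaternion.imI_mul, t0, t1, t2, t3]
      show (x 1 : ℝ) / 2 = (z.1 : ℝ) / 2 * r.2.1 + (z.2.1 : ℝ) / 2 * r.1 +
        (z.2.2.1 : ℝ) / 2 * r.2.2.2 - (z.2.2.2 : ℝ) / 2 * r.2.2.1
      linarith
    · rw [Quaternion.imJ_mul, t0, t1, t2, t3]
      show (x 2 : ℝ) / 2 = (z.1 : ℝ) / 2 * r.2.2.1 - (z.2.1 : ℝ) / 2 * r.2.2.2 +
        (z.2.2.1 : ℝ) / 2 * r.1 + (z.2.2.2 : ℝ) / 2 * r.2.1
      linarith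
    · rw [Quaternion.imK_mul, t0, t1, t2, t3]
      show (x 3 : ℝ) / 2 = (z.1 : ℝ) / 2 * r.2.2.2 + (z.2.1 : ℝ) / 2 * r.2.2.1 -
        (z.2.2.1 : ℝ) / 2 * r.2.1 + (z.2.2.2 : ℝ) / 2 * r.1
      linarith

end Pool.Agent.Helper10.Qc
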